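import Pool.Agent.K3h1.KR.Unif

/-!
# Functions on the free topological group which are continuous on compact sets and vanish at the
points with countable support
-/

set_option autoImplicit false

open Topology Set Cardinal Filter
open Pool.Agent.R816.FTG Pool.Agent.R816.Dep

namespace Pool.Agent.K3h1.KR

/-! ### The data attached to a full point -/

/-- a partition of the support in large blocks -/
theorem exists_blocks (y : J → Bool) (hy : ℵ_ 1 < #(supp y)) :
    ∃ blk : J → I, ∀ i : I, ℵ_ 1 < #({j : J | y j = true ∧ blk j = i} : Set J) := by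
  classical
  have h1 : #(supp y × I) = #(supp y) := by
    rw [Cardinal.mk_prod, Cardinal.lift_id, Cardinal.lift_id, mk_I]
    exact Cardinal.mul_eq_left ((Cardinal.aleph0_le_aleph 1).trans hy.le) hy.le
      (Cardinal.aleph_pos 1).ne'
  obtain ⟨e⟩ : Nonempty (supp y ≃ supp y × I) := Cardinal.eq.1 h1.symm
  refine ⟨fun j => if h : j ∈ supp y then (e ⟨j, h⟩).2 else Classical.arbitrary I, fun i => ?_⟩
  refine hy.trans_le ?_
  refine Cardinal.mk_le_of_injective (f := fun s : supp y =>
    (⟨(e.symm (s, i)).1, ?_⟩ : ({j : J | y j = true ∧ (fun j => if h : j ∈ supp y then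
      (e ⟨j, h⟩).2 else Classical.arbitrary I) j = i} : Set J))) ?_
  · refine ⟨(e.symm (s, i)).2, ?_⟩
    change (if h : (e.symm (s, i)).1 ∈ supp y then (e ⟨(e.symm (s, i)).1, h⟩).2 else _) = i
    rw [dif_pos (e.symm (s, i)).2]
    change (e (e.symm (s, i))).2 = i
    rw [Equiv.apply_symm_apply]
  · intro s s' h
    have h2 := congrArg Subtype.val h
    have h3 : e.symm (s, i) = e.symm (s', i) := Subtype.ext h2
    exact congrArg Prod.fst (e.symm.injective h3)

/-- a function to a countable set of indices, injective on a set of size at most `ℵ₁` -/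
theorem exists_index (S : Set J) (hS : #S ≤ ℵ_ 1) : ∃ t : J → I, InjOn t S := by
  classical
  rw [← mk_I] at hS
  obtain ⟨e⟩ := hS
  refine ⟨fun j => if h : j ∈ S then e ⟨j, h⟩ else Classical.arbitrary I, ?_⟩
  intro a ha b hb h
  simp only [dif_pos ha, dif_pos hb] at h
  exact congrArg Subtype.val (e.injective h)

theorem mk_biUnion_finset_le (F : I → Finset J) :
    #((⋃ i, (F i : Set J)) ∪ range Sum.inr : Set J) ≤ ℵ_ 1 := by
  have h0 : ℵ₀ ≤ ℵ_ 1 := Cardinal.aleph0_le_aleph 1
  refine (Cardinal.mk_union_le _ _).trans ?_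
  refine (add_le_add (b := ℵ_ 1) (d := ℵ_ 1) ?_ ?_).trans (Cardinal.add_eq_self h0).le
  · refine (Cardinal.mk_iUnion_le_sum_mk).trans ?_
    refine (Cardinal.sum_le_sum _ (fun _ => ℵ_ 1) fun i => ?_).trans ?_
    · exact (Cardinal.mk_le_aleph0_iff.2 ((F i).countable_toSet)).trans h0
    · rw [Cardinal.sum_const, Cardinal.lift_id, Cardinal.lift_id, mk_I]
      exact (Cardinal.mul_eq_self h0).le
  · refine Cardinal.mk_range_le.trans ?_
    rw [mk_I]

/-- neighbourhoods of the top point of a Cantor cube -/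
theorem exists_finset_top {T : Type} {O : Set (T → Bool)} (hO : O ∈ 𝓝 (fun _ : T => true)) :
    ∃ F : Finset T, ∀ S : T → Bool, (∀ j ∈ F, S j = true) → S ∈ O := by
  obtain ⟨O', hO', hO'o, heO'⟩ := _root_.mem_nhds_iff.1 hO
  obtain ⟨F, u, hu, hF⟩ := isOpen_pi_iff.1 hO'o _ heO'
  refine ⟨F, fun S hS => hO' (hF ?_)⟩
  intro A hA
  rw [hS A hA]
  exact (hu A hA).2

theorem comp_kr {Y Z : Type} [TopologicalSpace Y] [TopologicalSpace Z] [CompactSpace Z]
    {f : Y → ℝ} (hf : ∀ K : Set Y, IsCompact K → ContinuousOn f K) {h : Z → Y}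
    (hh : Continuous h) : Continuous fun z => f (h z) :=
  (hf (range h) (isCompact_range hh)).comp_continuous hh fun z => mem_range_self z

end Pool.Agent.K3h1.KR
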