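import Pool.Agent.K3h1.KR.LemmaL

/-!
# The compact set linking the two kinds of points
-/

set_option autoImplicit false

open Topology Set Cardinal Filter
open Pool.Agent.R816.FTG Pool.Agent.R816.Dep

namespace Pool.Agent.K3h1.KR

/-- a full point with blocks, a set of coordinates and an injective index function on it -/
structure Dat where
  y : J → Bool
  hy : ∀ i : I, y (Sum.inr i) = true
  blk : J → I
  hblk : ∀ i : I, ℵ_ 1 < #({j : J | y j = true ∧ blk j = i} : Set J)
  S : Set J
  hS : range Sum.inr ⊆ S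
  tt : J → I
  htt : InjOn tt S

namespace Dat

variable (D : Dat)

open Classical in
/-- the first family -/
noncomputable def Y0 (W : I → Bool) : J → Bool :=
  fun j => D.y j && (decide (j ∈ D.S) || !(W (D.blk j)))

open Classical in
/-- the second family -/
noncomputable def X0 (W : I → Bool) : J → Bool :=
  fun j => D.y j && (decide (j ∈ D.S) && W (D.tt j))

theorem Y0_mem {W : I → Bool} {i₀ : I} (h : W i₀ = false) : D.Y0 W ∈ XS := by
  refine Or.inr ⟨fun i => ?_, ?_⟩
  · have h1 : (Sum.inr i : J) ∈ D.S := D.hS (mem_range_self i)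
    simp [Y0, D.hy i, h1]
  · refine (D.hblk i₀).trans_le (Cardinal.mk_le_mk_of_subset ?_)
    rintro j ⟨hj1, hj2⟩
    change D.Y0 W j = true
    simp [Y0, hj1, hj2, h]

theorem X0_countable {W : I → Bool} (hW : ∀ i j, i ≤ j → W j = true → W i = true) {i₀ : I}
    (h : W i₀ = false) : (supp (D.X0 W)).Countable := by
  have h1 : supp (D.X0 W) ⊆ D.S ∩ D.tt ⁻¹' (Iio i₀) := by
    intro j hj
    have h2 : D.X0 W j = true := hj
    simp only [X0, Bool.and_eq_true, decide_eq_true_eq] at h2
    refine ⟨h2.2.1, ?_⟩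
    by_contra h3
    have h4 := hW i₀ (D.tt j) (not_lt.1 h3) h2.2.2
    rw [h] at h4
    exact absurd h4 (by simp)
  refine Countable.mono h1 ?_
  have h5 : InjOn D.tt (D.S ∩ D.tt ⁻¹' (Iio i₀)) := D.htt.mono inter_subset_left
  refine Set.countable_of_injective_of_countable_image h5 ?_
  refine (countable_Iio i₀).mono ?_
  rintro _ ⟨j, hj, rfl⟩
  exact hj.2

open Classical in
theorem Y0_continuous : Continuous D.Y0 := by
  refine continuous_pi fun j => ?_
  exact (continuous_of_discreteTopology
    (f := fun b : Bool => D.y j && (decide (j ∈ D.S) || !b))).comp (continuous_apply (D.blk j))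

open Classical in
theorem X0_continuous : Continuous D.X0 := by
  refine continuous_pi fun j => ?_
  exact (continuous_of_discreteTopology
    (f := fun b : Bool => D.y j && (decide (j ∈ D.S) && b))).comp (continuous_apply (D.tt j))

/-- lower sets -/
def Ws : Set (I → Bool) := {W | ∀ i j, i ≤ j → W j = true → W i = true}

theorem isClosed_Ws : IsClosed Ws := by
  have h1 : Ws = ⋂ i, ⋂ j, ⋂ (_ : i ≤ j), {W : I → Bool | W j = true → W i = true} := by
    ext W
    simp [Ws]
  rw [h1]
  refine isClosed_iInter fun i => isClosed_iInter fun j => isClosed_iInter fun _ => ?_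
  have h2 : Continuous fun W : I → Bool => (W j, W i) :=
    (continuous_apply j).prodMk (continuous_apply i)
  exact (isClosed_discrete {p : Bool × Bool | p.1 = true → p.2 = true}).preimage h2

instance : CompactSpace Ws := isCompact_iff_compactSpace.1 isClosed_Ws.isCompact

open Classical in
/-- the first family in the space -/
noncomputable def Yx (W : Ws) : X := if h : ∃ i, W.1 i = false then ⟨D.Y0 W.1, D.Y0_mem h.choose_spec⟩
  else zero

open Classical in
/-- the second family in the space -/
noncomputable def Xx (W : Ws) : X := if h : ∃ i, W.1 i = false then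
  ⟨D.X0 W.1, Or.inl (D.X0_countable W.2 h.choose_spec)⟩ else zero

theorem Yx_val {W : Ws} (h : ∃ i, W.1 i = false) : (D.Yx W).1 = D.Y0 W.1 := by
  unfold Yx
  rw [dif_pos h]

theorem Xx_val {W : Ws} (h : ∃ i, W.1 i = false) : (D.Xx W).1 = D.X0 W.1 := by
  unfold Xx
  rw [dif_pos h]

open Classical in
/-- the link -/
noncomputable def P (W : Ws) : FTG X := if ∃ i, W.1 i = false then gen (D.Yx W) * (gen (D.Xx W))⁻¹
  else 1

theorem isOpen_coord (i : I) (b : Bool) : IsOpen {W : Ws | W.1 i = b} := by
  have hc : Continuous fun W : Ws => W.1 i := (continuous_apply i).comp continuous_subtype_val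
  exact (isOpen_discrete ({b} : Set Bool)).preimage hc

theorem Yx_continuousAt {W : Ws} (h : ∃ i, W.1 i = false) : ContinuousAt D.Yx W := by
  obtain ⟨i, hi⟩ := h
  rw [Topology.IsInducing.subtypeVal.continuousAt_iff]
  have h1 : (fun W : Ws => D.Y0 W.1) =ᶠ[𝓝 W] (Subtype.val ∘ D.Yx) := by
    filter_upwards [(isOpen_coord i false).mem_nhds hi] with V hV
    exact (D.Yx_val ⟨i, hV⟩).symm
  exact ((D.Y0_continuous.comp continuous_subtype_val).continuousAt).congr h1

theorem Xx_continuousAt {W : Ws} (h : ∃ i, W.1 i = false) : ContinuousAt D.Xx W := by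
  obtain ⟨i, hi⟩ := h
  rw [Topology.IsInducing.subtypeVal.continuousAt_iff]
  have h1 : (fun W : Ws => D.X0 W.1) =ᶠ[𝓝 W] (Subtype.val ∘ D.Xx) := by
    filter_upwards [(isOpen_coord i false).mem_nhds hi] with V hV
    exact (D.Xx_val ⟨i, hV⟩).symm
  exact ((D.X0_continuous.comp continuous_subtype_val).continuousAt).congr h1

/-- **the link is continuous** -/
theorem P_continuous : Continuous D.P := by
  rw [continuous_iff_continuousAt]
  intro W
  by_cases h : ∃ i, W.1 i = false
  · have h1 : (fun V : Ws => gen (D.Yx V) * (gen (D.Xx V))⁻¹) =ᶠ[𝓝 W] D.P := by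
      obtain ⟨i, hi⟩ := h
      filter_upwards [(isOpen_coord i false).mem_nhds hi] with V hV
      unfold P
      rw [if_pos ⟨i, hV⟩]
    refine ContinuousAt.congr ?_ h1
    exact ((continuous_gen X).continuousAt.comp (D.Yx_continuousAt h)).mul
      ((continuous_gen X).continuousAt.comp (D.Xx_continuousAt h)).inv
  · have hP : D.P W = 1 := by
      unfold P
      rw [if_neg h]
    have hW : ∀ i, W.1 i = true := by
      intro i
      by_contra h1
      exact h ⟨i, by simpa using h1⟩
    unfold ContinuousAt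
    rw [hP]
    intro U hU
    obtain ⟨B, hB, hBU⟩ := exists_countable_unif hU
    obtain ⟨a, ha⟩ := exists_bound ((hB.image D.tt).union (hB.image D.blk))
    rw [Filter.mem_map]
    filter_upwards [(isOpen_coord a true).mem_nhds (hW a)] with V hV
    change D.P V ∈ U
    unfold P
    by_cases hV2 : ∃ i, V.1 i = false
    · rw [if_pos hV2]
      refine hBU _ _ fun j hj => ?_
      rw [D.Yx_val hV2, D.Xx_val hV2]
      have h1 : V.1 (D.tt j) = true :=
        V.2 _ a (ha _ (Or.inl (mem_image_of_mem _ hj))).le hV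
      have h2 : V.1 (D.blk j) = true :=
        V.2 _ a (ha _ (Or.inr (mem_image_of_mem _ hj))).le hV
      simp [X0, Y0, h1, h2]
    · rw [if_neg hV2]
      exact mem_of_mem_nhds hU

open Classical in
/-- the initial segments -/
noncomputable def seg (i : I) : Ws := ⟨fun j => decide (j < i), fun a b hab hb => by
  simp only [decide_eq_true_eq] at hb ⊢
  exact hab.trans_lt hb⟩

theorem seg_self (i : I) : ∃ j, (seg i).1 j = false := ⟨i, by simp [seg]⟩

theorem Xx_sig (i : I) : Sig (D.Xx (seg i)) := by
  unfold Sig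
  rw [D.Xx_val (seg_self i)]
  exact D.X0_countable (seg i).2 (seg_self i).choose_spec

/-- the values along the link come close to zero -/
theorem exists_close (φ : FTG X → ℝ) (hφ : ∀ K : Set (FTG X), IsCompact K → ContinuousOn φ K)
    (h0 : ∀ z : X, Sig z → φ (gen z) = 0) {ε : ℝ} (hε : 0 < ε) :
    ∃ i : I, |φ (gen (D.Yx (seg i)))| ≤ ε := by
  classical
  -- for fixed `z` the values tend to zero
  have h1 : ∀ z : X, Sig z → ∃ a : I, ∀ k, a ≤ k →
      |φ (gen (D.Yx (seg k)) * (gen (D.Xx (seg k)))⁻¹ * gen z)| < ε := by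
    intro z hz
    have hc : Continuous fun W : Ws => φ (D.P W * gen z) :=
      comp_kr hφ (D.P_continuous.mul continuous_const)
    let top : Ws := ⟨fun _ => true, fun _ _ _ _ => rfl⟩
    have htop : D.P top = 1 := by
      unfold P
      rw [if_neg]
      rintro ⟨i, hi⟩
      exact absurd hi (by simp [top])
    have h2 : {W : Ws | |φ (D.P W * gen z)| < ε} ∈ 𝓝 top := by
      have h3 := hc.abs.tendsto top
      have h4 : |φ (D.P top * gen z)| = 0 := by
        rw [htop, one_mul, h0 z hz, abs_zero]
      rw [h4] at h3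
      exact h3 (Iio_mem_nhds hε)
    obtain ⟨O, hO, hOV⟩ := mem_nhds_subtype _ _ _ |>.1 h2
    obtain ⟨F, hF⟩ := exists_finset_top hO
    obtain ⟨a, ha⟩ := exists_bound F.countable_toSet
    refine ⟨a, fun k hk => ?_⟩
    have h5 : (seg k) ∈ {W : Ws | |φ (D.P W * gen z)| < ε} := by
      apply hOV
      apply hF
      intro j hj
      simp only [seg, decide_eq_true_eq]
      exact (ha j hj).trans_le hk
    have h6 : D.P (seg k) = gen (D.Yx (seg k)) * (gen (D.Xx (seg k)))⁻¹ := by
      unfold P
      rw [if_pos (seg_self k)]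
    have h7 : |φ (D.P (seg k) * gen z)| < ε := h5
    rwa [h6] at h7
  choose! a ha using h1
  -- an increasing sequence
  have hb : ∀ i : I, ∃ b : I, i < b ∧ a (D.Xx (seg i)) < b := by
    intro i
    obtain ⟨b, hb⟩ := exists_bound (C := {i, a (D.Xx (seg i))}) (by simp)
    exact ⟨b, hb _ (by simp), hb _ (by simp)⟩
  choose b hb1 hb2 using hb
  let s : ℕ → I := fun n => Nat.rec (Classical.arbitrary I) (fun _ i => b i) n
  have hs : ∀ n, s (n + 1) = b (s n) := fun n => rfl
  have hs1 : ∀ n, s n < s (n + 1) := fun n => by rw [hs]; exact hb1 _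
  obtain ⟨c, hc⟩ := exists_bound (Set.countable_range s)
  have hne : {i : I | ∀ n, s n < i}.Nonempty := ⟨c, fun n => hc _ (mem_range_self n)⟩
  let st : I := WellFounded.min (wellFounded_lt (α := I)) _ hne
  have hst : ∀ n, s n < st := WellFounded.min_mem (wellFounded_lt (α := I)) _ hne
  have hmin : ∀ j, j < st → ∃ n, j ≤ s n := by
    intro j hj
    by_contra hcon
    push Not at hcon
    exact WellFounded.not_lt_min (wellFounded_lt (α := I)) (s := {i : I | ∀ n, s n < i}) hcon hj
  refine ⟨st, ?_⟩
  -- the auxiliary map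
  have hmem : ∀ V : I → Bool, (supp fun j => D.X0 V j && decide (D.tt j < st)).Countable := by
    intro V
    have h2 : (supp fun j => D.X0 V j && decide (D.tt j < st)) ⊆ D.S ∩ D.tt ⁻¹' (Iio st) := by
      intro j hj
      have h3 : (D.X0 V j && decide (D.tt j < st)) = true := hj
      simp only [X0, Bool.and_eq_true, decide_eq_true_eq] at h3
      exact ⟨h3.1.2.1, h3.2⟩
    refine Countable.mono h2 ?_
    refine Set.countable_of_injective_of_countable_image (D.htt.mono inter_subset_left) ?_
    refine (countable_Iio st).mono ?_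
    rintro _ ⟨j, hj, rfl⟩
    exact hj.2
  let m : (I → Bool) → X := fun V => ⟨fun j => D.X0 V j && decide (D.tt j < st), Or.inl (hmem V)⟩
  have hm : Continuous m := by
    refine Continuous.subtype_mk ?_ _
    refine continuous_pi fun j => ?_
    exact (continuous_of_discreteTopology (f := fun b : Bool => b && decide (D.tt j < st))).comp
      ((continuous_apply j).comp D.X0_continuous)
  have hms : ∀ i, i ≤ st → m (seg i).1 = D.Xx (seg i) := by
    intro i hi
    apply Subtype.ext
    rw [D.Xx_val (seg_self i)]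
    funext j
    change (D.X0 (seg i).1 j && decide (D.tt j < st)) = D.X0 (seg i).1 j
    by_cases h : D.X0 (seg i).1 j = true
    · have h2 : D.tt j < i := by
        simp only [X0, seg, Bool.and_eq_true, decide_eq_true_eq] at h
        exact h.2.2
      rw [h, Bool.true_and, decide_eq_true_eq]
      exact h2.trans_le hi
    · have h2 : D.X0 (seg i).1 j = false := by simpa using h
      rw [h2, Bool.false_and]
  have hcont : Continuous fun V : I → Bool =>
      φ (gen (D.Yx (seg st)) * (gen (D.Xx (seg st)))⁻¹ * gen (m V)) :=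
    comp_kr hφ (continuous_const.mul ((continuous_gen X).comp hm))
  have hlim : Tendsto (fun n => (seg (s n)).1) atTop (𝓝 (seg st).1) := by
    rw [tendsto_pi_nhds]
    intro j
    apply tendsto_const_nhds.congr'
    have hmono : StrictMono s := strictMono_nat_of_lt_succ hs1
    by_cases hj : j < st
    · obtain ⟨n, hn⟩ := hmin j hj
      filter_upwards [eventually_gt_atTop n] with k hk
      have h2 : j < s k := hn.trans_lt (hmono hk)
      simp [seg, hj, h2]
    · refine Eventually.of_forall fun k => ?_
      have h2 : ¬ j < s k := fun h => hj (h.trans (hst k))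
      simp [seg, hj, h2]
  have h8 : Tendsto (fun n => φ (gen (D.Yx (seg st)) * (gen (D.Xx (seg st)))⁻¹ *
      gen (m (seg (s n)).1))) atTop (𝓝 (φ (gen (D.Yx (seg st)) * (gen (D.Xx (seg st)))⁻¹ *
      gen (m (seg st).1)))) := (hcont.tendsto _).comp hlim
  rw [hms st le_rfl] at h8
  have h9 : gen (D.Yx (seg st)) * (gen (D.Xx (seg st)))⁻¹ * gen (D.Xx (seg st)) =
      gen (D.Yx (seg st)) := by group
  rw [h9] at h8
  refine le_of_tendsto h8.abs (Eventually.of_forall fun n => ?_)
  change |φ (gen (D.Yx (seg st)) * (gen (D.Xx (seg st)))⁻¹ * gen (m (seg (s n)).1))| ≤ ε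
  rw [hms (s n) (hst n).le]
  refine (ha _ (D.Xx_sig (s n)) st ?_).le
  exact (hb2 (s n)).le.trans (by rw [← hs]; exact (hst (n + 1)).le)

end Dat

/-- **Lemma L.** -/
theorem lemmaL (φ : FTG X → ℝ) (hφ : ∀ K : Set (FTG X), IsCompact K → ContinuousOn φ K)
    (h0 : ∀ z : X, Sig z → φ (gen z) = 0) (y : X) : φ (gen y) = 0 := by
  classical
  by_cases hs : Sig y
  · exact h0 y hs
  by_contra hne
  obtain ⟨hy1, hy2⟩ := full_of_not_sig hs
  set ε : ℝ := |φ (gen y)| / 3 with hεd
  have hpos : 0 < |φ (gen y)| := abs_pos.2 hne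
  have hε : 0 < ε := by positivity
  obtain ⟨blk, hblk⟩ := exists_blocks y.1 hy2
  -- the cubes
  have hcubmem : ∀ (i : I) (S : J → Bool),
      (fun j : J => y.1 j && (S j || decide (i ≤ blk j) || j.isRight)) ∈ XS := by
    intro i S
    refine Or.inr ⟨fun k => ?_, ?_⟩
    · simp [hy1 k]
    · refine (hblk i).trans_le (Cardinal.mk_le_mk_of_subset ?_)
      rintro j ⟨hj1, hj2⟩
      change (y.1 j && (S j || decide (i ≤ blk j) || j.isRight)) = true
      simp [hj1, hj2]
  let cub : I → (J → Bool) → X := fun i S => ⟨_, hcubmem i S⟩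
  have hcubc : ∀ i, Continuous (cub i) := by
    intro i
    refine Continuous.subtype_mk ?_ _
    refine continuous_pi fun j => ?_
    exact (continuous_of_discreteTopology
      (f := fun b : Bool => y.1 j && (b || decide (i ≤ blk j) || j.isRight))).comp
      (continuous_apply j)
  have hcubtop : ∀ i, cub i (fun _ => true) = y := by
    intro i
    apply Subtype.ext
    funext j
    change (y.1 j && (true || decide (i ≤ blk j) || j.isRight)) = y.1 j
    simp
  have h1 : ∀ i, ∃ F : Finset J, ∀ S : J → Bool, (∀ j ∈ F, S j = true) →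
      |φ (gen (cub i S)) - φ (gen y)| < ε := by
    intro i
    have hc : Continuous fun S : J → Bool => |φ (gen (cub i S)) - φ (gen y)| :=
      ((comp_kr hφ ((continuous_gen X).comp (hcubc i))).sub continuous_const).abs
    have h2 : {S : J → Bool | |φ (gen (cub i S)) - φ (gen y)| < ε} ∈ 𝓝 (fun _ : J => true) := by
      have h3 := hc.tendsto (fun _ : J => true)
      have h4 : |φ (gen (cub i (fun _ : J => true))) - φ (gen y)| = 0 := by
        rw [hcubtop, sub_self, abs_zero]
      rw [h4] at h3
      exact h3 (Iio_mem_nhds hε)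
    exact exists_finset_top h2
  choose F hF using h1
  let S : Set J := (⋃ i, (F i : Set J)) ∪ range Sum.inr
  obtain ⟨tt, htt⟩ := exists_index S (mk_biUnion_finset_le F)
  let D : Dat := ⟨y.1, hy1, blk, hblk, S, subset_union_right, tt, htt⟩
  obtain ⟨i, hi⟩ := D.exists_close φ hφ h0 hε
  have h2 : D.Yx (Dat.seg i) = cub i (fun j => decide (j ∈ S)) := by
    apply Subtype.ext
    rw [D.Yx_val (Dat.seg_self i)]
    funext j
    change D.Y0 (Dat.seg i).1 j = (y.1 j && (decide (j ∈ S) || decide (i ≤ blk j) || j.isRight))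
    rw [Bool.eq_iff_iff]
    have h7 : D.Y0 (Dat.seg i).1 j = true ↔ y.1 j = true ∧ (j ∈ S ∨ i ≤ blk j) := by
      simp [Dat.Y0, Dat.seg, D]
    rw [h7]
    simp only [Bool.and_eq_true, Bool.or_eq_true, decide_eq_true_eq]
    constructor
    · rintro ⟨h8, h9⟩
      exact ⟨h8, Or.inl h9⟩
    · rintro ⟨h8, h9 | h9⟩
      · exact ⟨h8, h9⟩
      · refine ⟨h8, Or.inl ?_⟩
        obtain ⟨k, rfl⟩ := Sum.isRight_iff.1 h9
        exact Or.inr (mem_range_self k)
  rw [h2] at hi
  have h3 := hF i (fun j => decide (j ∈ S)) (fun j hj => by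
    have : j ∈ S := Or.inl (mem_iUnion.2 ⟨i, hj⟩)
    simp [this])
  have h4 : |φ (gen y)| ≤ |φ (gen (cub i (fun j => decide (j ∈ S))))| +
      |φ (gen (cub i (fun j => decide (j ∈ S)))) - φ (gen y)| := by
    have := abs_sub_abs_le_abs_sub (φ (gen y)) (φ (gen (cub i (fun j => decide (j ∈ S)))))
    rw [abs_sub_comm] at this
    linarith
  have h5 : |φ (gen y)| = 3 * ε := by
    rw [hεd]
    ring
  linarith

end Pool.Agent.K3h1.KR
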