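import Pool.Agent.K3h1.KR.Split

/-!
# `F(X)` is a `k_R`-space and `F_1(X)` is not
-/

set_option autoImplicit false

open Topology Set Cardinal Filter
open Pool.Agent.R816.FTG Pool.Agent.R816.Dep
open Pool.Agent.R816.ClosedSub (letter letter_continuous exists_letter map_q)

namespace Pool.Agent.K3h1.KR

/-- the element given by a list of letters -/
def mkw {Y : Type} (L : List (Y × Bool)) : FTG Y := (FreeGroup.mk L : FreeGroup Y)

theorem mkw_nil {Y : Type} : mkw ([] : List (Y × Bool)) = 1 := rfl

theorem mkw_true {Y : Type} (y : Y) : mkw [(y, true)] = gen y := rfl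

theorem mkw_false {Y : Type} (y : Y) : mkw [(y, false)] = (gen y)⁻¹ := rfl

theorem mkw_cons {Y : Type} (p : Y × Bool) (L : List (Y × Bool)) :
    mkw (p :: L) = mkw [p] * mkw L := by
  change (FreeGroup.mk (p :: L) : FreeGroup Y) = FreeGroup.mk [p] * FreeGroup.mk L
  rw [FreeGroup.mul_mk]
  rfl

theorem mkw_word {Y : Type} (w : FTG Y) : mkw (word w) = w := mk_word w

/-- the points with countable support as a type -/
abbrev XSig : Type := {x : X // Sig x}

theorem zero_sig : Sig zero := by
  have : supp (fun _ : J => false) = ∅ := by
    ext j
    simp [supp]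
  unfold Sig zero
  change (supp (fun _ : J => false)).Countable
  rw [this]
  exact countable_empty

instance : Nonempty XSig := ⟨⟨zero, zero_sig⟩⟩

/-- `F(X)` is a `k_R`-space -/
theorem isKR_FTG (f : FTG X → ℝ) (hf : ∀ K : Set (FTG X), IsCompact K → ContinuousOn f K) :
    Continuous f := by
  classical
  have hdep : ∀ (n : ℕ) (c : Fin n → Option Bool), ∃ B : Set J, B.Countable ∧
      ∀ x y : Fin n → X, (∀ i, Sig (x i)) → (∀ i, Sig (y i)) →
        (∀ i, ∀ j ∈ B, (x i).1 j = (y i).1 j) →
        f (q n fun i => letter (c i) (x i)) = f (q n fun i => letter (c i) (y i)) := by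
    intro n c
    refine sig_dep n (fun x => f (q n fun i => letter (c i) (x i))) ?_
    intro K _ h hh
    refine comp_kr hf ((q_continuous n).comp (continuous_pi fun i => ?_))
    exact (letter_continuous (c i)).comp ((continuous_apply i).comp hh)
  choose Bn hBn hBdep using hdep
  let B : Set J := ⋃ n, ⋃ c, Bn n c
  have hB : B.Countable := countable_iUnion fun n => countable_iUnion fun c => hBn n c
  let r : X → X := rr hB
  have hr : Continuous r := rr_continuous hB
  let f₁ : FTG X → ℝ := fun w => f w - f (R816.FTG.map r w)
  have hf₁ : ∀ K : Set (FTG X), IsCompact K → ContinuousOn f₁ K := by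
    intro K hK
    refine (hf K hK).sub ?_
    have h1 := hf (R816.FTG.map r '' K) (hK.image (map_continuous hr))
    exact h1.comp (map_continuous hr).continuousOn (mapsTo_image _ _)
  -- words in the points with countable support
  have hbase : ∀ v : FTG XSig, f₁ (R816.FTG.map Subtype.val v) = 0 := by
    intro v
    obtain ⟨n, u, rfl⟩ := q_surj v
    choose c x hcx using fun i => exists_letter (u i)
    have hu : u = fun i => letter (c i) (x i) := funext hcx
    change f (R816.FTG.map Subtype.val (q n u)) - f (R816.FTG.map r (R816.FTG.map Subtype.val (q n u))) = 0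
    rw [hu, R816.FTG.map_map, map_q, map_q, sub_eq_zero]
    refine hBdep n c _ _ (fun i => (x i).2) (fun i => rr_sig hB _) ?_
    intro i j hj
    exact (rr_of_mem hB (x i).1 (mem_iUnion.2 ⟨n, mem_iUnion.2 ⟨c, hj⟩⟩)).symm
  -- all words
  have hmain : ∀ L : List (X × Bool), ∀ v : FTG XSig,
      f₁ (R816.FTG.map Subtype.val v * mkw L) = 0 := by
    intro L
    induction L with
    | nil =>
      intro v
      rw [mkw_nil, mul_one]
      exact hbase v
    | cons p L ih =>
      intro v
      obtain ⟨x, b⟩ := p
      rw [mkw_cons, ← mul_assoc]
      cases b with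
      | true =>
        rw [mkw_true]
        refine lemmaL (fun w => f₁ (R816.FTG.map Subtype.val v * w * mkw L))
          ?_ ?_ x
        · intro K hK
          have hc : Continuous fun w : FTG X => (R816.FTG.map Subtype.val v * w *
              mkw L : FTG X) :=
            (continuous_const.mul continuous_id).mul continuous_const
          exact (hf₁ _ (hK.image hc)).comp hc.continuousOn (mapsTo_image _ _)
        · intro z hz
          have h3 := ih (v * gen ⟨z, hz⟩)
          rw [map_mul, map_gen] at h3
          exact h3
      | false =>
        rw [mkw_false]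
        refine lemmaL (fun w => f₁ (R816.FTG.map Subtype.val v * w⁻¹ * mkw L))
          ?_ ?_ x
        · intro K hK
          have hc : Continuous fun w : FTG X => (R816.FTG.map Subtype.val v * w⁻¹ *
              mkw L : FTG X) :=
            (continuous_const.mul continuous_inv).mul continuous_const
          exact (hf₁ _ (hK.image hc)).comp hc.continuousOn (mapsTo_image _ _)
        · intro z hz
          have h3 := ih (v * (gen ⟨z, hz⟩)⁻¹)
          rw [map_mul, map_inv, map_gen] at h3
          exact h3
  have hall : ∀ w : FTG X, f w = f (R816.FTG.map r w) := by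
    intro w
    have h1 := hmain (word w) 1
    rw [map_one, one_mul, mkw_word] at h1
    exact sub_eq_zero.1 h1
  have hTS : TotallySeparatedSpace (B → Bool) := inferInstance
  have h1 : Continuous fun v : FTG (B → Bool) => f (R816.FTG.map (ext hB) v) := by
    refine continuous_of_q fun n => ?_
    exact comp_kr hf ((map_continuous (ext_continuous hB)).comp (q_continuous n))
  have h2 : f = fun w => f (R816.FTG.map (ext hB) (R816.FTG.map (res B) w)) := by
    funext w
    rw [R816.FTG.map_map]
    exact hall w
  rw [h2]
  exact h1.comp (map_continuous res_continuous)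

/-! ### The first level -/

/-- the products of at most `n` letters -/
def Fn (n : ℕ) : Set (FTG X) :=
  {w | ∃ L : List (X × Bool), L.length ≤ n ∧ w = mkw L}

/-- the exponent sum -/
def es : FTG X →* Multiplicative ℤ := R816.FTG.lift fun _ => Multiplicative.ofAdd 1

theorem es_continuous : Continuous es := lift_continuous continuous_const

/-- the coordinate `j` of the letters -/
def fj (j : J) (x : X) : FreeGroup Bool := FreeGroup.of (x.1 j)

theorem fj_locallyConstant (j : J) : IsLocallyConstant (fj j) := by
  have h1 : IsLocallyConstant fun x : X => x.1 j := by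
    rw [IsLocallyConstant.iff_continuous]
    exact (continuous_apply j).comp continuous_subtype_val
  exact h1.comp FreeGroup.of

/-- the first letter of a word in two letters -/
def first (v : FreeGroup Bool) : Bool := (v.toWord.head?).elim false Prod.fst

theorem reduce_of_pos : ∀ L : List (Bool × Bool), (∀ p ∈ L, p.2 = true) → FreeGroup.reduce L = L := by
  intro L
  induction L with
  | nil => intro _; rfl
  | cons p L ih =>
    intro h
    have h1 := ih (fun q hq => h q (List.mem_cons_of_mem _ hq))
    rw [FreeGroup.reduce.cons, h1]
    cases L with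
    | nil => rfl
    | cons q L =>
      have h2 : p.2 = true := h p (by simp)
      have h3 : q.2 = true := h q (by simp)
      simp [h2, h3]

open Classical in
/-- the retraction of the positive words of length `n` to the first letter -/
noncomputable def rho (n : ℕ) (w : FTG X) : J → Bool := fun j =>
  decide (es w = Multiplicative.ofAdd (n : ℤ)) && first (R816.FTG.lift (fj j) w)

theorem rho_continuous (n : ℕ) : Continuous (rho n) := by
  classical
  refine continuous_pi fun j => ?_
  have h1 : Continuous fun w : FTG X => decide (es w = Multiplicative.ofAdd (n : ℤ)) :=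
    (continuous_of_discreteTopology
      (f := fun b : Multiplicative ℤ => decide (b = Multiplicative.ofAdd (n : ℤ)))).comp
      es_continuous
  have h2 : Continuous fun w : FTG X => first (R816.FTG.lift (fj j) w) := by
    rw [continuous_def]
    intro O _
    exact isOpen_lift (fj_locallyConstant j) (first ⁻¹' O)
  exact (continuous_of_discreteTopology (f := fun b : Bool × Bool => b.1 && b.2)).comp
    (h1.prodMk h2)

theorem es_mkw : ∀ L : List (X × Bool), ∃ k : ℤ, es (mkw L) = Multiplicative.ofAdd k ∧
    k ≤ L.length ∧ (k = L.length → ∀ p ∈ L, p.2 = true) := by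
  intro L
  induction L with
  | nil =>
    refine ⟨0, ?_, by simp, by simp⟩
    rw [mkw_nil, map_one]
    rfl
  | cons p L ih =>
    obtain ⟨k, hk1, hk2, hk3⟩ := ih
    obtain ⟨x, b⟩ := p
    rw [mkw_cons, map_mul, hk1]
    cases b with
    | true =>
      refine ⟨1 + k, ?_, ?_, ?_⟩
      · rw [mkw_true]
        unfold es
        rw [lift_gen]
        rfl
      · rw [List.length_cons]
        push_cast
        linarith
      · intro h p hp
        rw [List.length_cons] at h
        push_cast at h
        rcases List.mem_cons.1 hp with h1 | h1
        · rw [h1]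
        · exact hk3 (by linarith) p h1
    | false =>
      refine ⟨-1 + k, ?_, ?_, ?_⟩
      · rw [mkw_false]
        unfold es
        rw [map_inv, lift_gen]
        rfl
      · rw [List.length_cons]
        push_cast
        linarith
      · intro h
        rw [List.length_cons] at h
        push_cast at h
        exfalso
        linarith

theorem lift_mkw_pos (j : J) : ∀ L : List (X × Bool),
    R816.FTG.lift (fj j) (mkw L) = FreeGroup.mk (L.map fun p => (p.1.1 j, p.2)) := by
  intro L
  induction L with
  | nil => rfl
  | cons p L ih =>
    obtain ⟨x, b⟩ := p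
    rw [mkw_cons, map_mul, ih]
    cases b with
    | true =>
      rw [mkw_true, lift_gen]
      unfold fj FreeGroup.of
      rw [FreeGroup.mul_mk]
      rfl
    | false =>
      rw [mkw_false, map_inv, lift_gen]
      unfold fj FreeGroup.of
      rw [FreeGroup.inv_mk, FreeGroup.mul_mk]
      rfl

theorem rho_pos {n : ℕ} {x : X} {L : List (X × Bool)} (hL : ∀ p ∈ (x, true) :: L, p.2 = true)
    (hes : es (mkw ((x, true) :: L)) = Multiplicative.ofAdd (n : ℤ)) :
    rho n (mkw ((x, true) :: L)) = x.1 := by
  funext j
  unfold rho
  rw [hes, lift_mkw_pos]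
  unfold first
  rw [FreeGroup.toWord_mk, reduce_of_pos]
  · simp
  · intro p hp
    obtain ⟨q, hq, rfl⟩ := List.mem_map.1 hp
    exact hL q hq

theorem rho_mem {n : ℕ} (hn : 1 ≤ n) {w : FTG X} (hw : w ∈ Fn n) : rho n w ∈ XS := by
  classical
  by_cases hes : es w = Multiplicative.ofAdd (n : ℤ)
  · obtain ⟨L, hL, rfl⟩ := hw
    obtain ⟨k, hk1, hk2, hk3⟩ := es_mkw L
    have hkn : k = n := by
      rw [hk1] at hes
      exact Multiplicative.ofAdd.injective hes
    have hLn : (L.length : ℤ) = n := by
      have : (L.length : ℤ) ≤ n := by exact_mod_cast hL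
      linarith
    have hpos := hk3 (by linarith)
    match L, hLn, hpos, hes with
    | [], hLn, _, _ =>
      exfalso
      rw [List.length_nil] at hLn
      push_cast at hLn
      omega
    | (x, b) :: L, _, hpos, hes =>
      have hb : b = true := hpos (x, b) (by simp)
      subst hb
      rw [rho_pos hpos hes]
      exact x.2
  · have h1 : rho n w = zero.1 := by
      funext j
      unfold rho
      rw [decide_eq_false hes, Bool.false_and]
      rfl
    rw [h1]
    exact zero.2

theorem not_isKR_Fn {n : ℕ} (hn : 1 ≤ n) : ¬ ∀ f : Fn n → ℝ,
    (∀ K : Set (Fn n), IsCompact K → ContinuousOn f K) → Continuous f := by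
  intro h
  let ρ : Fn n → X := fun w => ⟨rho n w.1, rho_mem hn w.2⟩
  have hρ : Continuous ρ := ((rho_continuous n).comp continuous_subtype_val).subtype_mk _
  have h1 : Continuous fun w : Fn n => chi (ρ w) := by
    refine h _ fun K hK => ?_
    exact (chi_continuousOn (hK.image hρ)).comp hρ.continuousOn (mapsTo_image _ _)
  let T : List (X × Bool) := List.replicate (n - 1) (zero, true)
  have hpos : ∀ x : X, ∀ p ∈ (x, true) :: T, p.2 = true := by
    intro x p hp
    rcases List.mem_cons.1 hp with h2 | h2
    · rw [h2]
    · rw [List.eq_of_mem_replicate h2]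
  have hes : ∀ x : X, es (mkw ((x, true) :: T)) = Multiplicative.ofAdd (n : ℤ) := by
    intro x
    have h2 : ∀ m : ℕ, es (mkw (List.replicate m (zero, true))) = Multiplicative.ofAdd (m : ℤ) := by
      intro m
      induction m with
      | zero =>
        change es (mkw []) = _
        rw [mkw_nil, map_one]
        rfl
      | succ m ih =>
        rw [List.replicate_succ, mkw_cons, map_mul, ih, mkw_true]
        unfold es
        rw [lift_gen, ← ofAdd_add]
        congr 1
        push_cast
        ring
    rw [mkw_cons, map_mul, h2, mkw_true]
    unfold es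
    rw [lift_gen, ← ofAdd_add]
    congr 1
    have : ((n - 1 : ℕ) : ℤ) = n - 1 := by
      push_cast [hn]
      ring
    rw [this]
    ring
  let g : X → Fn n := fun x => ⟨mkw ((x, true) :: T), (x, true) :: T, by
    rw [List.length_cons, List.length_replicate]
    omega, rfl⟩
  have hg : Continuous g := by
    refine Continuous.subtype_mk ?_ _
    have h2 : (fun x : X => mkw ((x, true) :: T)) = fun x => gen x * mkw T := by
      funext x
      rw [mkw_cons, mkw_true]
    rw [h2]
    exact (continuous_gen X).mul continuous_const
  have h2 : (fun x => chi (ρ (g x))) = chi := by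
    funext x
    congr 1
    exact Subtype.ext (rho_pos (hpos x) (hes x))
  apply chi_not_continuous
  rw [← h2]
  exact h1.comp hg

end Pool.Agent.K3h1.KR
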