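import Pool.Agent.R816.ClosedSub

/-!
# The space

`X` is the subspace of the Cantor cube on `Set I ⊕ I`, where `I` is a well-ordered set of type `ω₁`,
consisting of the points with countable support and of the points which are `1` on the second block
and have support of size greater than `ℵ₁`.
-/

set_option autoImplicit false

open Topology Set Cardinal Filter
open Pool.Agent.R816.FTG Pool.Agent.R816.Dep

namespace Pool.Agent.K3h1.KR

/-! ### The well-ordered set -/

/-- a well-ordered set of type `ω₁` -/
abbrev I : Type := (ℵ_ 1).ord.ToType

theorem mk_I : #I = ℵ_ 1 := Cardinal.mk_ord_toType _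

theorem countable_Iio (a : I) : (Iio a).Countable := by
  rw [← Cardinal.le_aleph0_iff_set_countable, ← Cardinal.lt_aleph_one_iff]
  have h4 := Cardinal.mk_Iio_lt a (by rw [Cardinal.mk_ord_toType, Ordinal.type_toType])
  rw [mk_I] at h4
  exact h4

theorem not_countable_univ : ¬ (Set.univ : Set I).Countable := by
  rw [← Cardinal.le_aleph0_iff_set_countable, ← Cardinal.lt_aleph_one_iff, Cardinal.mk_univ, mk_I]
  exact lt_irrefl _

theorem exists_bound {C : Set I} (hC : C.Countable) : ∃ a : I, ∀ i ∈ C, i < a := by
  by_contra hcon
  push Not at hcon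
  apply not_countable_univ
  have h1 : (Set.univ : Set I) ⊆ ⋃ c ∈ C, (Iio c ∪ {c}) := by
    intro a _
    obtain ⟨i, hi, hai⟩ := hcon a
    refine mem_biUnion hi ?_
    rcases hai.lt_or_eq with h | h
    · exact Or.inl h
    · exact Or.inr h
  refine Countable.mono h1 (hC.biUnion fun c _ => ?_)
  exact (countable_Iio c).union (countable_singleton c)

instance : Nonempty I := by
  obtain ⟨a, _⟩ := exists_bound (C := ∅) countable_empty
  exact ⟨a⟩

/-! ### The space -/

/-- the set of coordinates -/
abbrev J : Type := Set I ⊕ I

theorem mk_J_gt : ℵ_ 1 < #J := by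
  rw [Cardinal.mk_sum, Cardinal.lift_id, Cardinal.lift_id, Cardinal.mk_set, mk_I]
  exact (Cardinal.cantor _).trans_le (self_le_add_right _ _)

/-- the points of the second kind -/
def Full (x : J → Bool) : Prop := (∀ i : I, x (Sum.inr i) = true) ∧ ℵ_ 1 < #(supp x)

/-- the underlying set of the space -/
def XS : Set (J → Bool) := {x | (supp x).Countable ∨ Full x}

/-- the space -/
abbrev X : Type := XS

theorem isClopen_coord {P : Bool → Bool → Prop} (A B : J) :
    IsClopen {z : X | P (z.1 A) (z.1 B)} := by
  have h1 : Continuous fun z : X => (z.1 A, z.1 B) :=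
    ((continuous_apply A).comp continuous_subtype_val).prodMk
      ((continuous_apply B).comp continuous_subtype_val)
  exact (isClopen_discrete {p : Bool × Bool | P p.1 p.2}).preimage h1

instance : TotallySeparatedSpace X := by
  rw [totallySeparatedSpace_iff_exists_isClopen]
  intro x y hxy
  have h1 : x.1 ≠ y.1 := fun h => hxy (Subtype.ext h)
  obtain ⟨A, hA⟩ := Function.ne_iff.1 h1
  refine ⟨{z : X | z.1 A = x.1 A}, isClopen_coord (P := fun a _ => a = x.1 A) A A, rfl, ?_⟩
  intro h
  exact hA (Eq.symm h)

instance : T35Space X := Topology.IsEmbedding.subtypeVal.t35Space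

theorem not_countable_of_full {x : J → Bool} (h : ∀ i : I, x (Sum.inr i) = true) :
    ¬ (supp x).Countable := by
  intro hc
  apply not_countable_univ
  have h1 : (Set.univ : Set I) = Sum.inr ⁻¹' (supp x) := by
    ext i
    simp only [mem_univ, mem_preimage, true_iff]
    exact h i
  rw [h1]
  exact hc.preimage Sum.inr_injective

/-- the points with countable support -/
def Sig (x : X) : Prop := (supp x.1).Countable

theorem full_of_not_sig {x : X} (h : ¬ Sig x) : Full x.1 := x.2.resolve_left h

/-- the zero point -/
def zero : X := ⟨fun _ => false, Or.inl (by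
  have : supp (fun _ : J => false) = ∅ := by
    ext j
    simp [supp]
  rw [this]
  exact countable_empty)⟩

instance : Nonempty X := ⟨zero⟩

section extres

variable (B : Set J)

open Classical in
/-- extension by `false` -/
noncomputable def ext0 (z : B → Bool) : J → Bool := fun a => if h : a ∈ B then z ⟨a, h⟩ else false

theorem supp_ext0 (z : B → Bool) : supp (ext0 B z) ⊆ B := by
  intro a ha
  by_contra h
  have h1 : ext0 B z a = true := ha
  unfold ext0 at h1
  rw [dif_neg h] at h1
  exact absurd h1 (by simp)

theorem ext0_continuous : Continuous (ext0 B) := by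
  refine continuous_pi fun a => ?_
  by_cases h : a ∈ B
  · have : (fun z : B → Bool => ext0 B z a) = fun z => z ⟨a, h⟩ := by
      funext z
      unfold ext0
      rw [dif_pos h]
    rw [this]
    exact continuous_apply _
  · have : (fun z : B → Bool => ext0 B z a) = fun _ => false := by
      funext z
      unfold ext0
      rw [dif_neg h]
    rw [this]
    exact continuous_const

variable {B}

/-- extension by `false` as a map to the space -/
noncomputable def ext (hB : B.Countable) (z : B → Bool) : X :=
  ⟨ext0 B z, Or.inl (hB.mono (supp_ext0 B z))⟩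

theorem ext_continuous (hB : B.Countable) : Continuous (ext hB) :=
  (ext0_continuous B).subtype_mk _

theorem ext_sig (hB : B.Countable) (z : B → Bool) : Sig (ext hB z) := hB.mono (supp_ext0 B z)

/-- restriction -/
def res (B : Set J) (x : X) : B → Bool := fun b => x.1 b

theorem res_continuous : Continuous (res B) :=
  continuous_pi fun _ => (continuous_apply _).comp continuous_subtype_val

theorem ext_res (hB : B.Countable) (x : X) : (ext hB (res B x)).1 = rest B x.1 := by
  funext a
  change ext0 B (res B x) a = _
  unfold ext0 rest res
  split_ifs <;> rfl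

/-- restriction to countably many coordinates as a map of the space -/
noncomputable def rr (hB : B.Countable) (x : X) : X := ext hB (res B x)

theorem rr_continuous (hB : B.Countable) : Continuous (rr hB) :=
  (ext_continuous hB).comp res_continuous

theorem rr_sig (hB : B.Countable) (x : X) : Sig (rr hB x) := ext_sig hB _

theorem rr_of_mem (hB : B.Countable) (x : X) {j : J} (hj : j ∈ B) : (rr hB x).1 j = x.1 j := by
  unfold rr
  rw [ext_res, rest_of_mem hj]

theorem rr_congr (hB : B.Countable) {x y : X} (h : ∀ j ∈ B, x.1 j = y.1 j) : rr hB x = rr hB y := by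
  apply Subtype.ext
  unfold rr
  rw [ext_res, ext_res]
  exact rest_congr h

end extres

end Pool.Agent.K3h1.KR
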