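import Pool.Agent.K3h1.KR.Link

/-!
# Compact subsets of the space split
-/

set_option autoImplicit false

open Topology Set Cardinal Filter
open Pool.Agent.R816.FTG Pool.Agent.R816.Dep

namespace Pool.Agent.K3h1.KR

section closing

variable (z : Finset J → X)

/-- one step of the closing-off -/
def op (A : Set J) : Set J := A ∪ ⋃ F : Finset A, supp (z (F.map (Function.Embedding.subtype _))).1

/-- the closing-off -/
def cl : ℕ → Set J := fun n => Nat.rec (range Sum.inr) (fun _ A => op z A) n

theorem cl_succ (n : ℕ) : cl z (n + 1) = op z (cl z n) := rfl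

theorem cl_mono : Monotone (cl z) := monotone_nat_of_le_succ fun n => by
  rw [cl_succ]
  exact subset_union_left

theorem mk_range_inr : #(range (Sum.inr : I → J)) = ℵ_ 1 := by
  rw [Cardinal.mk_range_eq _ Sum.inr_injective, mk_I]

theorem mk_cl (hz : ∀ F, Sig (z F)) (n : ℕ) : #(cl z n) = ℵ_ 1 := by
  have h0 : ℵ₀ ≤ ℵ_ 1 := Cardinal.aleph0_le_aleph 1
  induction n with
  | zero => exact mk_range_inr
  | succ n ih =>
    refine le_antisymm ?_ ?_
    · rw [cl_succ]
      unfold op
      refine (Cardinal.mk_union_le _ _).trans ?_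
      refine (add_le_add (b := ℵ_ 1) (d := ℵ_ 1) ih.le ?_).trans (Cardinal.add_eq_self h0).le
      refine (Cardinal.mk_iUnion_le_sum_mk).trans ?_
      refine (Cardinal.sum_le_sum _ (fun _ => ℵ_ 1) fun F => ?_).trans ?_
      · exact (Cardinal.le_aleph0_iff_set_countable.2 (hz _)).trans h0
      · rw [Cardinal.sum_const, Cardinal.lift_id, Cardinal.lift_id]
        have hinf : Infinite (cl z n) := by
          rw [Cardinal.infinite_iff, ih]
          exact h0
        rw [Cardinal.mk_finset_of_infinite, ih]
        exact (Cardinal.mul_eq_self h0).le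
    · rw [← ih]
      exact Cardinal.mk_le_mk_of_subset (cl_mono z (Nat.le_succ n))

theorem mk_iUnion_cl (hz : ∀ F, Sig (z F)) : #(⋃ n, cl z n : Set J) ≤ ℵ_ 1 := by
  have h0 : ℵ₀ ≤ ℵ_ 1 := Cardinal.aleph0_le_aleph 1
  refine (Cardinal.mk_iUnion_le_sum_mk).trans ?_
  refine (Cardinal.sum_le_sum _ (fun _ => ℵ_ 1) fun n => (mk_cl z hz n).le).trans ?_
  rw [Cardinal.sum_const, Cardinal.lift_id, Cardinal.lift_id, Cardinal.mk_nat]
  exact (Cardinal.mul_eq_right h0 h0 Cardinal.aleph0_ne_zero).le

theorem supp_subset_cl (F : Finset (⋃ n, cl z n : Set J)) :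
    supp (z (F.map (Function.Embedding.subtype _))).1 ⊆ ⋃ n, cl z n := by
  classical
  have h1 : ∃ n, ∀ j ∈ F, j.1 ∈ cl z n := by
    induction F using Finset.induction_on with
    | empty => exact ⟨0, by simp⟩
    | insert a F _ ih =>
      obtain ⟨n, hn⟩ := ih
      obtain ⟨m, hm⟩ := mem_iUnion.1 a.2
      refine ⟨max n m, fun j hj => ?_⟩
      rcases Finset.mem_insert.1 hj with h | h
      · rw [h]
        exact cl_mono z (le_max_right n m) hm
      · exact cl_mono z (le_max_left n m) (hn j h)
  obtain ⟨n, hn⟩ := h1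
  have h2 : ∃ G : Finset (cl z n), G.map (Function.Embedding.subtype _) =
      F.map (Function.Embedding.subtype _) := by
    refine ⟨(F.map (Function.Embedding.subtype _)).subtype (fun j => j ∈ cl z n), ?_⟩
    rw [Finset.subtype_map]
    apply Finset.filter_true_of_mem
    intro j hj
    obtain ⟨a, ha, rfl⟩ := Finset.mem_map.1 hj
    exact hn a ha
  obtain ⟨G, hG⟩ := h2
  intro j hj
  refine mem_iUnion.2 ⟨n + 1, ?_⟩
  rw [cl_succ]
  refine Or.inr (mem_iUnion.2 ⟨G, ?_⟩)
  rw [hG]
  exact hj

end closing

/-- points with uncountable support are not limits, in a compact set, of points with countable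
support -/
theorem eventually_not_sig {K : Set X} (hK : IsCompact K) {x : X} (hx : ¬ Sig x) :
    ∀ᶠ z in 𝓝[K] x, ¬ Sig z := by
  classical
  by_contra hcon
  have h1 : ∀ F : Finset J, ∃ z : X, z ∈ K ∧ Sig z ∧ ∀ j ∈ F, z.1 j = x.1 j := by
    intro F
    by_contra hF
    push Not at hF
    apply hcon
    have h2 : {z : X | ∀ j ∈ F, z.1 j = x.1 j} ∈ 𝓝 x := by
      have h3 : {z : X | ∀ j ∈ F, z.1 j = x.1 j} = ⋂ j ∈ F, {z : X | z.1 j = x.1 j} := by
        ext z
        simp
      rw [h3, Filter.biInter_finset_mem]
      intro j _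
      exact (isClopen_coord (P := fun a _ => a = x.1 j) j j).isOpen.mem_nhds rfl
    filter_upwards [nhdsWithin_le_nhds h2, self_mem_nhdsWithin] with z hz1 hz2 hz3
    obtain ⟨j, hj, hj2⟩ := hF z hz2 hz3
    exact hj2 (hz1 j hj)
  choose z hzK hzS hzx using h1
  let A : Set J := ⋃ n, cl z n
  let U : Ultrafilter (Finset A) := Ultrafilter.of Filter.atTop
  have hU : (U : Filter (Finset A)) ≤ Filter.atTop := Ultrafilter.of_le _
  let G : Finset A → X := fun F => z (F.map (Function.Embedding.subtype _))
  obtain ⟨ζ, hζK, hlim⟩ := hK.ultrafilter_le_nhds (U.map G) (by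
    rw [le_principal_iff]
    exact Filter.mem_map.2 (Filter.univ_mem' fun F => hzK _))
  have hlim' : Tendsto G (U : Filter (Finset A)) (𝓝 ζ) := hlim
  have hcoord : ∀ j, Tendsto (fun F => (G F).1 j) (U : Filter (Finset A)) (𝓝 (ζ.1 j)) := by
    intro j
    exact (((continuous_apply j).comp continuous_subtype_val).tendsto ζ).comp hlim'
  have hA : ∀ j ∈ A, ζ.1 j = x.1 j := by
    intro j hj
    have h2 : Tendsto (fun F => (G F).1 j) (U : Filter (Finset A)) (𝓝 (x.1 j)) := by
      apply tendsto_const_nhds.congr'
      have h3 : ∀ᶠ F in (U : Filter (Finset A)), ({⟨j, hj⟩} : Finset A) ≤ F :=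
        hU (eventually_ge_atTop _)
      filter_upwards [h3] with F hF
      refine (hzx _ j ?_).symm
      exact Finset.mem_map.2 ⟨⟨j, hj⟩, hF (Finset.mem_singleton_self _), rfl⟩
    exact tendsto_nhds_unique (hcoord j) h2
  have hAc : ∀ j, j ∉ A → ζ.1 j = false := by
    intro j hj
    have h2 : Tendsto (fun F => (G F).1 j) (U : Filter (Finset A)) (𝓝 false) := by
      apply tendsto_const_nhds.congr
      intro F
      by_contra h3
      have h4 : (G F).1 j = true := by
        by_contra h5
        exact h3 (by simpa using (Bool.eq_false_of_not_eq_true h5).symm)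
      exact hj (supp_subset_cl z F h4)
    exact tendsto_nhds_unique (hcoord j) h2
  have hxF := full_of_not_sig hx
  have hfull : ∀ i : I, ζ.1 (Sum.inr i) = true := by
    intro i
    rw [hA _ (mem_iUnion.2 ⟨0, mem_range_self i⟩)]
    exact hxF.1 i
  have hsmall : #(supp ζ.1) ≤ ℵ_ 1 := by
    refine (Cardinal.mk_le_mk_of_subset ?_).trans (mk_iUnion_cl z hzS)
    intro j hj
    by_contra h2
    have h3 : ζ.1 j = true := hj
    rw [hAc j h2] at h3
    exact absurd h3 (by simp)
  rcases ζ.2 with h | h
  · exact not_countable_of_full hfull h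
  · exact absurd h.2 (not_lt.2 hsmall)

open Classical in
/-- the indicator function of the points with uncountable support -/
noncomputable def chi (x : X) : ℝ := if Sig x then 0 else 1

theorem chi_continuousOn {K : Set X} (hK : IsCompact K) : ContinuousOn chi K := by
  classical
  intro x _
  by_cases hx : Sig x
  · have h1 : ∃ i : I, x.1 (Sum.inr i) = false := by
      by_contra hcon
      push Not at hcon
      exact not_countable_of_full (fun i => by simpa using hcon i) hx
    obtain ⟨i, hi⟩ := h1
    have h2 : ∀ᶠ z in 𝓝[K] x, Sig z := by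
      have h3 : {z : X | z.1 (Sum.inr i) = false} ∈ 𝓝 x :=
        (isClopen_coord (P := fun a _ => a = false) (Sum.inr i) (Sum.inr i)).isOpen.mem_nhds hi
      filter_upwards [nhdsWithin_le_nhds h3] with z hz
      by_contra h4
      have h5 := (full_of_not_sig h4).1 i
      rw [hz] at h5
      exact absurd h5 (by simp)
    have h3 : chi =ᶠ[𝓝[K] x] fun _ => (0 : ℝ) := by
      filter_upwards [h2] with z hz
      unfold chi
      rw [if_pos hz]
    unfold ContinuousWithinAt
    have h4 : chi x = 0 := by
      unfold chi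
      rw [if_pos hx]
    rw [h4]
    exact tendsto_const_nhds.congr' h3.symm
  · have h2 := eventually_not_sig hK hx
    have h3 : chi =ᶠ[𝓝[K] x] fun _ => (1 : ℝ) := by
      filter_upwards [h2] with z hz
      unfold chi
      rw [if_neg hz]
    unfold ContinuousWithinAt
    have h4 : chi x = 1 := by
      unfold chi
      rw [if_neg hx]
    rw [h4]
    exact tendsto_const_nhds.congr' h3.symm

/-- the point all of whose coordinates are `1` -/
def one : X := ⟨fun _ => true, Or.inr ⟨fun _ => rfl, by
  have h1 : supp (fun _ : J => true) = Set.univ := by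
    ext j
    simp [supp]
  rw [h1, Cardinal.mk_univ]
  exact mk_J_gt⟩⟩

theorem one_not_sig : ¬ Sig one := not_countable_of_full fun _ => rfl

theorem chi_not_continuous : ¬ Continuous chi := by
  classical
  intro h
  have h1 := (h.tendsto one).comp (rr_tendsto countable_empty one)
  have h2 : chi one = 1 := by
    unfold chi
    rw [if_neg one_not_sig]
  have h3 : Tendsto (fun F : Finset J =>
      chi (rr (countable_empty.union F.countable_toSet) one)) atTop (𝓝 0) := by
    apply tendsto_const_nhds.congr
    intro F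
    unfold chi
    rw [if_pos (rr_sig _ _)]
  have h4 := tendsto_nhds_unique h1 h3
  rw [h2] at h4
  exact one_ne_zero h4

end Pool.Agent.K3h1.KR
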