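import Pool.Agent.K3h1.KR.Space

/-!
# Countably many coordinates control the fine uniformity
-/

set_option autoImplicit false

open Topology Set Cardinal Filter
open Pool.Agent.R816.FTG Pool.Agent.R816.Dep

namespace Pool.Agent.K3h1.KR

/-- A Hausdorff topological group is a Tychonoff space. -/
theorem t35_of_t2 (G : Type) [Group G] [TopologicalSpace G] [IsTopologicalGroup G] [T2Space G] :
    T35Space G := by
  let _ : UniformSpace G := IsTopologicalGroup.rightUniformSpace G
  exact {}

/-- the rows of a point of `2^(n × J)` -/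
def row {n : ℕ} (y : Fin n × J → Bool) (i : Fin n) : J → Bool := fun A => y (i, A)

theorem card_row {n : ℕ} (y : Fin n × J → Bool) (i : Fin n) : #(supp (row y i)) ≤ #(supp y) := by
  refine Cardinal.mk_le_of_injective (f := fun A : supp (row y i) => (⟨(i, A.1), A.2⟩ : supp y)) ?_
  intro A A' h
  have := congrArg (fun t : supp y => t.1.2) h
  exact Subtype.ext this

/-- functions of several points with countable support which are continuous on compact sets depend
on countably many coordinates -/
theorem sig_dep (n : ℕ) (f : (Fin n → X) → ℝ)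
    (hf : ∀ (K : Set (Fin n × J → Bool)), CompactSpace K →
      ∀ h : K → Fin n → X, Continuous h → Continuous fun z => f (h z)) :
    ∃ B : Set J, B.Countable ∧ ∀ x y : Fin n → X, (∀ i, Sig (x i)) → (∀ i, Sig (y i)) →
      (∀ i, ∀ j ∈ B, (x i).1 j = (y i).1 j) → f x = f y := by
  classical
  let g : (Fin n × J → Bool) → ℝ := fun y =>
    if h : ∀ i, (supp (row y i)).Countable then f (fun i => ⟨row y i, Or.inl (h i)⟩) else 0
  obtain ⟨A, hA, hdep⟩ := dep_countable (κ := ℵ_ 1)
    (X := {y : Fin n × J → Bool | ∀ i, (supp (row y i)).Countable}) (g := g)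
    Cardinal.aleph0_lt_aleph_one (by
      intro y hy i
      rw [← Cardinal.le_aleph0_iff_set_countable, ← Cardinal.lt_aleph_one_iff]
      exact (card_row y i).trans_lt hy) (by
      intro K hK hKc
      rw [continuousOn_iff_continuous_domRestrict]
      have : CompactSpace K := isCompact_iff_compactSpace.1 hKc
      have h1 : K.domRestrict g = fun z : K =>
          f (fun i => (⟨row z.1 i, Or.inl (hK z.2 i)⟩ : X)) := by
        funext z
        have h2 : ∀ i, (supp (row z.1 i)).Countable := hK z.2
        change (if h : ∀ i, (supp (row z.1 i)).Countable then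
          f (fun i => ⟨row z.1 i, Or.inl (h i)⟩) else 0) = _
        rw [dif_pos h2]
      rw [h1]
      refine hf K this _ (continuous_pi fun i => ?_)
      refine Continuous.subtype_mk ?_ _
      exact continuous_pi fun A => (continuous_apply (i, A)).comp continuous_subtype_val)
  refine ⟨Prod.snd '' A, hA.image _, fun x y hx hy hxy => ?_⟩
  have hc : ∀ x : Fin n → X, (∀ i, Sig (x i)) →
      (supp (fun p : Fin n × J => (x p.1).1 p.2)).Countable := by
    intro x hx
    have h1 : supp (fun p : Fin n × J => (x p.1).1 p.2) ⊆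
        ⋃ i, (fun j => (i, j)) '' (supp (x i).1) := by
      rintro ⟨i, j⟩ hp
      exact mem_iUnion.2 ⟨i, j, hp, rfl⟩
    exact Countable.mono h1 (countable_iUnion fun i => (hx i).image _)
  have h2 := hdep (fun p => (x p.1).1 p.2) (fun p => (y p.1).1 p.2) (hc x hx) (hc y hy)
    (fun p hp => hxy p.1 p.2 (mem_image_of_mem _ hp))
  have h3 : ∀ x : Fin n → X, (∀ i, Sig (x i)) → g (fun p => (x p.1).1 p.2) = f x := by
    intro x hx
    have h4 : ∀ i, (supp (row (fun p : Fin n × J => (x p.1).1 p.2) i)).Countable := hx
    change (if h : ∀ i, (supp (row (fun p : Fin n × J => (x p.1).1 p.2) i)).Countable then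
      f (fun i => ⟨row (fun p : Fin n × J => (x p.1).1 p.2) i, Or.inl (h i)⟩) else 0) = _
    rw [dif_pos h4]
    rfl
  rw [h3 x hx, h3 y hy] at h2
  exact h2

theorem rr_tendsto {B : Set J} (hB : B.Countable) (x : X) :
    Tendsto (fun F : Finset J => rr (hB.union F.countable_toSet) x) atTop (𝓝 x) := by
  rw [tendsto_subtype_rng, tendsto_pi_nhds]
  intro j
  apply tendsto_const_nhds.congr'
  filter_upwards [eventually_ge_atTop ({j} : Finset J)] with F hF
  have hj : j ∈ B ∪ (F : Set J) := Or.inr (hF (Finset.mem_singleton_self j))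
  exact (rr_of_mem (hB.union F.countable_toSet) x hj).symm

/-- **Lemma M.** -/
theorem exists_countable_unif {U : Set (FTG X)} (hU : U ∈ 𝓝 (1 : FTG X)) :
    ∃ B : Set J, B.Countable ∧ ∀ x y : X, (∀ j ∈ B, x.1 j = y.1 j) → gen y * (gen x)⁻¹ ∈ U := by
  classical
  have := t35_of_t2 (FTG X)
  obtain ⟨f, hf, hf1, hfU⟩ := CompletelyRegularSpace.completely_regular (1 : FTG X)
    (interior U)ᶜ isOpen_interior.isClosed_compl (by simpa using mem_interior_iff_mem_nhds.2 hU)
  let f' : FTG X → ℝ := fun w => (f w : ℝ)
  have hf' : Continuous f' := continuous_subtype_val.comp hf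
  have hf1' : f' 1 = 0 := by
    change ((f 1 : unitInterval) : ℝ) = 0
    rw [hf1]
    rfl
  have hfU' : ∀ w, f' w = 0 → w ∈ U := by
    intro w hw
    by_contra hwU
    have h1 := hfU (fun h => hwU (interior_subset h) : w ∈ (interior U)ᶜ)
    change ((f w : unitInterval) : ℝ) = 0 at hw
    rw [h1] at hw
    simp at hw
  obtain ⟨B, hB, hdep⟩ := sig_dep 2 (fun x => f' (gen (x 1) * (gen (x 0))⁻¹)) (by
    intro K _ h hh
    refine hf'.comp ?_
    have h0 : ∀ i, Continuous fun z => gen (h z i) := fun i =>
      (continuous_gen X).comp ((continuous_apply i).comp hh)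
    exact (h0 1).mul (h0 0).inv)
  refine ⟨B, hB, fun x y hxy => hfU' _ ?_⟩
  have hlim : Tendsto (fun F : Finset J => f' (gen (rr (hB.union F.countable_toSet) y) *
      (gen (rr (hB.union F.countable_toSet) x))⁻¹)) atTop (𝓝 (f' (gen y * (gen x)⁻¹))) := by
    have h1 : ∀ x : X, Tendsto (fun F : Finset J => gen (rr (hB.union F.countable_toSet) x)) atTop
        (𝓝 (gen x)) := fun x => ((continuous_gen X).tendsto x).comp (rr_tendsto hB x)
    exact (hf'.tendsto _).comp ((h1 y).mul (h1 x).inv)
  have hzero : ∀ F : Finset J, f' (gen (rr (hB.union F.countable_toSet) y) *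
      (gen (rr (hB.union F.countable_toSet) x))⁻¹) = 0 := by
    intro F
    have h1 := hdep ![rr (hB.union F.countable_toSet) x, rr (hB.union F.countable_toSet) y]
      ![rr (hB.union F.countable_toSet) x, rr (hB.union F.countable_toSet) x]
      (by
        intro i
        fin_cases i
        · exact rr_sig (hB.union F.countable_toSet) _
        · exact rr_sig (hB.union F.countable_toSet) _)
      (by
        intro i
        fin_cases i
        · exact rr_sig (hB.union F.countable_toSet) _
        · exact rr_sig (hB.union F.countable_toSet) _)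
      (by
        intro i j hj
        fin_cases i
        · rfl
        · change (rr (hB.union F.countable_toSet) y).1 j = (rr (hB.union F.countable_toSet) x).1 j
          have hj' : j ∈ B ∪ (F : Set J) := Or.inl hj
          rw [rr_of_mem _ y hj', rr_of_mem _ x hj', hxy j hj])
    simp only [Matrix.cons_val_one, Matrix.cons_val_zero] at h1
    rw [h1, mul_inv_cancel, hf1']
  have h2 := tendsto_nhds_unique hlim (tendsto_const_nhds.congr (fun F => (hzero F).symm))
  exact h2

end Pool.Agent.K3h1.KR
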